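import Pool.Agent.helper28.YP.All

/-!
# MP_65a8f1_co: `Y_p`-flows of bridgeless graphs and cyclically 5-edge-connected snarks

For every `p`: all bridgeless multigraphs have `Y_p`-flows iff all bridgeless simple graphs have them iff all
cyclically 5-edge-connected snarks have them. The same for a uniform bound of the least `p`.
-/

set_option autoImplicit false

namespace Pool.Agent.Results.MP_65a8f1_co.FourCuts

open Pool.Agent.YP

/-- For every `p`, all bridgeless multigraphs, respectively all bridgeless simple graphs, have a `Y_p`-flow iff all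
cyclically 5-edge-connected snarks have one. So Q1 is equivalent to its restriction to these
snarks, for multigraphs and for simple graphs, and to the existence of one `p ≥ 1` which serves for all of
them. -/
theorem result :
    (∀ p, (AllMulti p ↔ AllSnarks p) ∧ (AllSimple p ↔ AllSnarks p)) ∧
    ((∃ c : ℕ, ∀ (V : Type) [Fintype V] [DecidableEq V] (G : SimpleGraph V) [DecidableRel G.Adj],
        (∀ e ∈ G.edgeSet, ¬ G.IsBridge e) → ∃ p, 1 ≤ p ∧ p ≤ c ∧ YF p G) ↔
      ∃ c : ℕ, ∀ (V : Type) [Fintype V] [DecidableEq V] (G : SimpleGraph V) [DecidableRel G.Adj],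
        Snark G → ∃ p, 1 ≤ p ∧ p ≤ c ∧ YF p G) ∧
    ((∃ c : ℕ, ∀ (V : Type) [Fintype V] [DecidableEq V] (G : SimpleGraph V) [DecidableRel G.Adj],
        Snark G → ∃ p, 1 ≤ p ∧ p ≤ c ∧ YF p G) ↔ ∃ p, 1 ≤ p ∧ AllSnarks p) ∧
    ((∃ c : ℕ, ∀ (D V : Type) [Fintype D] [DecidableEq D] [Fintype V] [DecidableEq V] (al : D → D) (vt : D → V),
        IsMG al vt → ∃ p, 1 ≤ p ∧ p ≤ c ∧ DF p al vt) ↔
      ∃ c : ℕ, ∀ (V : Type) [Fintype V] [DecidableEq V] (G : SimpleGraph V) [DecidableRel G.Adj],
        Snark G → ∃ p, 1 ≤ p ∧ p ≤ c ∧ YF p G) :=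
  FIN all_MAI all_MLT all_SGM all_SGF

end Pool.Agent.Results.MP_65a8f1_co.FourCuts
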